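import Mathlib
import Pool.Agent.V11279.HG3

set_option autoImplicit false

/-!
# MP_46c6cb_nt: the associated order of `𝔒_L` in `H_λ` is maximal when `p ∤ [L : K]`
-/

namespace Pool.Agent.Results.MP_46c6cb_nt.AssocOrderMaximal

open Pool.Agent.V11279.HG

/-- The ring of integers of the `p`-adic field `K`: the integral closure of `ℤ_p` in `K`. -/
noncomputable abbrev RingInt (p : ℕ) [Fact p.Prime] (K : Type) [Field K] [Algebra ℤ_[p] K] :
    Subalgebra ℤ_[p] K :=
  integralClosure ℤ_[p] K

/-- Let `L/K` be a Galois extension of `p`-adic fields (`K` a finite extension of `ℚ_p`) whose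
degree is prime to `p`. Then the associated order `𝔄_λ = {h ∈ H_λ : h · 𝔒_L ⊆ 𝔒_L}` in the
canonical nonclassical Hopf-Galois structure is a maximal `𝔒_K`-order of `H_λ`. -/
theorem result (p : ℕ) [Fact p.Prime] (K L : Type) [Field K] [Field L]
    [Algebra ℚ_[p] K] [FiniteDimensional ℚ_[p] K] [Algebra ℤ_[p] K] [IsScalarTower ℤ_[p] ℚ_[p] K]
    [Algebra K L] [FiniteDimensional K L] [IsGalois K L] (hp : ¬ p ∣ Module.finrank K L) :
    IsMaximalOrder (RingInt p K) K
      (assocLam (RingInt p K) K L
        (Subalgebra.toSubmodule (integralClosure (RingInt p K) L)))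
      (Hlam K L) := by
  have h1 : IsDedekindDomain (RingInt p K) :=
    IsIntegralClosure.isDedekindDomain ℤ_[p] ℚ_[p] K (RingInt p K)
  have h2 : IsFractionRing (RingInt p K) K :=
    IsIntegralClosure.isFractionRing_of_finite_extension ℤ_[p] ℚ_[p] K (RingInt p K)
  apply isMaximalOrder_assocLam
  rw [IsGalois.card_aut_eq_finrank]
  have h3 : IsUnit ((Module.finrank K L : ℕ) : ℤ_[p]) := by
    rw [PadicInt.isUnit_iff, PadicInt.norm_natCast_eq_one_iff]
    exact (Nat.Prime.coprime_iff_not_dvd Fact.out).2 hp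
  have h4 := h3.map (algebraMap ℤ_[p] (RingInt p K))
  rwa [map_natCast] at h4

end Pool.Agent.Results.MP_46c6cb_nt.AssocOrderMaximal
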